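import Pool.Agent.SGK.Stmts

set_option autoImplicit false

/-!
# SGK, row CJO: conjugate orders, every permutation is possible
-/

namespace Pool.Agent.SGK.H77

open Pool.Agent.SGK

/-- a linear extension -/
theorem cjo_lin (lex : LexStmt) {V : Type} [Fintype V] (R : V → V → Prop)
    (h1 : ∀ u v w, R u v → R v w → R u w) (h2 : ∀ u, ¬ R u u) :
    ∃ x : V → ℤ, Function.Injective x ∧ ∀ u w, R u w → x u < x w := by
  obtain ⟨x, hx, -, hR, -⟩ := lex R h1 h2 ∅ (fun _ => 0)
    (fun u hu => absurd hu (Set.notMem_empty u)) (fun u hu => absurd hu (Set.notMem_empty u))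
  refine ⟨fun v => (x v : ℤ), fun u v h => hx ?_, fun u w h => ?_⟩
  · have h3 : (x u : ℤ) = x v := h
    exact_mod_cast h3
  · exact Int.ofNat_lt.2 (hR u w h)

/-- the rank of a function -/
theorem cjo_rank (lex : LexStmt) {k : ℕ} (f : Fin k → ℝ) (hf : Function.Injective f) :
    ∃ x : Fin k → ℤ, Function.Injective x ∧ ∀ i j, x i < x j → f i < f j := by
  obtain ⟨x, hx, hR⟩ := cjo_lin lex (fun i j : Fin k => f i < f j)
    (fun u v w h1 h2 => lt_trans h1 h2) (fun u => lt_irrefl _)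
  refine ⟨x, hx, fun i j h => ?_⟩
  rcases lt_trichotomy (f i) (f j) with h1 | h1 | h1
  · exact h1
  · rw [hf h1] at h
    exact absurd h (lt_irrefl _)
  · exact absurd (hR j i h1) (not_lt.2 h.le)

/-- **CJO** -/
theorem cjo (cnj : CnjStmt) (lex : LexStmt) : CjoStmt := by
  intro U _ X Y k hk hX hXi hY hYi htot hex f g hf hg
  have hne : ∀ u v w, (X u v ∨ X v u) → (Y v w ∨ Y w v) → u ≠ w := by
    rintro u v w h1 h2 rfl
    exact hex u v ⟨h1, h2.symm⟩
  -- the two linear orders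
  have hR₁ : ∀ u v w, (X u v ∨ Y u v) → (X v w ∨ Y v w) → (X u w ∨ Y u w) := by
    rintro u v w (h1 | h1) (h2 | h2)
    · exact Or.inl (hX u v w h1 h2)
    · rcases htot u w (hne u v w (Or.inl h1) (Or.inl h2)) with h | h | h | h
      · exact Or.inl h
      · exact absurd ⟨Or.inr (hX w u v h h1), Or.inl h2⟩ (hex v w)
      · exact Or.inr h
      · exact absurd ⟨Or.inl h1, Or.inr (hY v w u h2 h)⟩ (hex u v)
    · rcases htot u w (hne w v u (Or.inr h2) (Or.inr h1)).symm with h | h | h | h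
      · exact Or.inl h
      · exact absurd ⟨Or.inr (hX v w u h2 h), Or.inl h1⟩ (hex u v)
      · exact Or.inr h
      · exact absurd ⟨Or.inl h2, Or.inr (hY w u v h h1)⟩ (hex v w)
    · exact Or.inr (hY u v w h1 h2)
  have hR₂ : ∀ u v w, (X u v ∨ Y v u) → (X v w ∨ Y w v) → (X u w ∨ Y w u) := by
    rintro u v w (h1 | h1) (h2 | h2)
    · exact Or.inl (hX u v w h1 h2)
    · rcases htot u w (hne u v w (Or.inl h1) (Or.inr h2)) with h | h | h | h
      · exact Or.inl h
      · exact absurd ⟨Or.inr (hX w u v h h1), Or.inr h2⟩ (hex v w)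
      · exact absurd ⟨Or.inl h1, Or.inl (hY u w v h h2)⟩ (hex u v)
      · exact Or.inr h
    · rcases htot u w (hne w v u (Or.inr h2) (Or.inl h1)).symm with h | h | h | h
      · exact Or.inl h
      · exact absurd ⟨Or.inr (hX v w u h2 h), Or.inr h1⟩ (hex u v)
      · exact absurd ⟨Or.inl h2, Or.inl (hY v u w h1 h)⟩ (hex v w)
      · exact Or.inr h
    · exact Or.inr (hY w v u h2 h1)
  obtain ⟨p, hp, hpR⟩ := cjo_lin lex (fun u w => X u w ∨ Y u w) hR₁
    (fun u h => h.elim (hXi u) (hYi u))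
  obtain ⟨t, ht, htR⟩ := cjo_lin lex (fun u w => X u w ∨ Y w u) hR₂
    (fun u h => h.elim (hXi u) (hYi u))
  obtain ⟨x, hx, hxf⟩ := cjo_rank lex f hf
  obtain ⟨y, hy, hyg⟩ := cjo_rank lex g hg
  obtain ⟨φ, hφ⟩ := cnj p t x y hp ht hx hy (by rw [hk, Fintype.card_fin])
  refine ⟨φ, fun u w h => ?_, fun u w h => ?_⟩
  · exact hxf _ _ ((hφ u w (hpR u w (Or.inl h))).1 (htR u w (Or.inl h)))
  · exact hyg _ _ ((hφ u w (hpR u w (Or.inr h))).2 (htR w u (Or.inr h)))

end Pool.Agent.SGK.H77
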